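import Pool.Agent.LAT.StmtsC

/-!
# Squad LAT, row PRJ
-/

set_option autoImplicit false

namespace Pool.Agent.LAT.H95

open Pool.Agent.LAT

noncomputable section

theorem prj : PrjStmt := by
  intro m V w
  let e : (Fin m → ℝ) ≃ₗ[ℝ] EuclideanSpace ℝ (Fin m) := (WithLp.linearEquiv 2 ℝ (Fin m → ℝ)).symm
  let V' : Submodule ℝ (EuclideanSpace ℝ (Fin m)) := V.map e.toLinearMap
  have : FiniteDimensional ℝ V' := inferInstance
  obtain ⟨p', hp', hq'⟩ : ∃ p' ∈ V', ∀ q' ∈ V', inner ℝ (e w - p') q' = (0 : ℝ) := by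
    refine ⟨V'.starProjection (e w), Submodule.starProjection_apply_mem _ _, ?_⟩
    intro q' hq'
    exact Submodule.starProjection_inner_eq_zero _ _ hq'
  obtain ⟨p, hp, rfl⟩ := hp'
  refine ⟨p, hp, ?_⟩
  intro q hq
  have h := hq' (e q) (Submodule.mem_map_of_mem hq)
  have h2 : inner ℝ (e w - e.toLinearMap p) (e q) = ((w - p) ⬝ᵥ q : ℝ) := by
    have h3 : e w - e.toLinearMap p = e (w - p) := by
      rw [map_sub]; rfl
    rw [h3, EuclideanSpace.inner_eq_star_dotProduct]
    simp only [star_trivial]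
    rw [dotProduct_comm]
    rfl
  rw [h2] at h
  exact h

end

end Pool.Agent.LAT.H95
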